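import Pool.Agent.H121.GA.IfB
import Pool.Agent.H121.Z987.Mom

/-! Project GA, job GA-SITE: the Green function of `T + V`, `V` unbounded. -/

set_option autoImplicit false

open scoped BigOperators InnerProductSpace Topology ENNReal
open Filter MeasureTheory

namespace Pool.Agent.H399.GA

open Pool.Agent.Y662.TR
open Pool.Agent.TH369.AN (Rz rz_eq rz_uniq rz_norm)
open Pool.Agent.H987.Z (Rs Gr)
open Pool.Agent.H304.Z987 (mul_summable' tsum_dv' Gr_symm Gr_im Gr_le)
open Pool.Agent.H121.Z987 (row ker_symm enorm_rpow coord_im den_ne rpow_tsum_le)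
open Pool.Agent.H121.GA

variable {ι : Type}

theorem HW_rs (T : LL ι →L[ℂ] LL ι) (hT : Rs T) (b : ℝ) (V : ι → ℝ) : Rs (HW T b V) := by
  refine ⟨hT.sa.add (Mw_sa b V), fun u v => ?_⟩
  have h1 : ∀ x, HW T b V u x * v x = T u x * v x + Mw b V u x * v x := by
    intro x
    have : HW T b V u x = T u x + Mw b V u x := rfl
    rw [this]; ring
  have h2 : ∀ x, u x * HW T b V v x = u x * T v x + Mw b V u x * v x := by
    intro x
    have : HW T b V v x = T v x + Mw b V v x := rfl
    rw [this, Mw_apply, Mw_apply]; ring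
  rw [tsum_congr h1, tsum_congr h2,
    Summable.tsum_add (mul_summable' (T u) v) (mul_summable' (Mw b V u) v),
    Summable.tsum_add (mul_summable' u (T v)) (mul_summable' (Mw b V u) v), hT.bil u v]

theorem ru_tendsto (hA : S_ruA) (T : LL ι →L[ℂ] LL ι) (hT : Rs T) (V : ι → ℝ) (z : ℂ)
    (hz : z.im ≠ 0) (f : LL ι) :
    Tendsto (fun n : ℕ => Rz (HW T (n : ℝ) V) z f) atTop (𝓝 (RU T V z f)) := by
  have h := (hA ι T hT V z hz).2.1
  exact ((ContinuousLinearMap.apply ℂ (LL ι) f).continuous.tendsto _).comp h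

theorem gu_tendsto (hA : S_ruA) (T : LL ι →L[ℂ] LL ι) (hT : Rs T) (V : ι → ℝ) (z : ℂ)
    (hz : z.im ≠ 0) (x y : ι) :
    Tendsto (fun n : ℕ => Gr (HW T (n : ℝ) V) z x y) atTop (𝓝 (GU T V z x y)) :=
  ((ev x).continuous.tendsto _).comp (ru_tendsto hA T hT V z hz (dv y))

theorem gu_im (hA : S_ruA) (T : LL ι →L[ℂ] LL ι) (hT : Rs T) (V : ι → ℝ) (z : ℂ)
    (hz : z.im ≠ 0) (x : ι) : (GU T V z x x).im = z.im * ‖RU T V z (dv x)‖ ^ 2 := by
  have h1 := (Complex.continuous_im.tendsto _).comp (gu_tendsto hA T hT V z hz x x)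
  have h2 := (((ru_tendsto hA T hT V z hz (dv x)).norm).pow 2).const_mul z.im
  refine tendsto_nhds_unique h1 (h2.congr fun n => ?_)
  exact (Gr_im _ (HW_rs T hT n V) z x hz).symm

theorem gu_im_pos (hA : S_ruA) (T : LL ι →L[ℂ] LL ι) (hT : Rs T) (V : ι → ℝ) (z : ℂ)
    (hz : 0 < z.im) (x : ι) : 0 < (GU T V z x x).im := by
  rw [gu_im hA T hT V z hz.ne' x]
  have h1 : RU T V z (dv x) ≠ 0 := by
    intro h
    have h2 := (hA ι T hT V z hz.ne').2.2.1 (dv x) x
    rw [h, map_zero, dv_self] at h2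
    have h3 : ((0 : LL ι) x) = 0 := rfl
    rw [h3, mul_zero, mul_zero, add_zero, sub_zero] at h2
    exact zero_ne_one h2
  have : 0 < ‖RU T V z (dv x)‖ := norm_pos_iff.2 h1
  positivity

open Classical in
theorem site (hA : S_ruA) : S_site := by
  intro ι T hT
  refine ⟨?_, ?_, ?_⟩
  · intro V z x y hz
    refine ⟨gu_im_pos hA T hT V z hz x, ?_, ?_⟩
    · have h1 := (Complex.continuous_im.tendsto _).comp (gu_tendsto hA T hT V z hz.ne' x x)
      have h2 := (((gu_tendsto hA T hT V z hz.ne' x y).norm).pow 2).const_mul z.im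
      refine le_of_tendsto_of_tendsto' h2 h1 fun n => ?_
      exact coord_im _ (HW_rs T hT n V) z hz x y
    · refine le_of_tendsto' (gu_tendsto hA T hT V z hz.ne' x y).norm fun n => ?_
      exact Gr_le _ (HW_rs T hT n V) z x y hz
  · intro lam ω z x y v hz
    obtain ⟨w, hw⟩ : ∃ w, w = RU T (fun p => lam * Function.update ω x v p) z (dv y) := ⟨_, rfl⟩
    have hA0 := hA ι T hT (fun p => lam * Function.update ω x 0 p) z hz.ne'
    have hA1 := hA ι T hT (fun p => lam * Function.update ω x v p) z hz.ne'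
    have h1 := hA1.2.2.1 (dv y)
    rw [← hw] at h1
    have h2 := hA0.2.2.2 (dv y - ((lam : ℂ) * (v : ℂ) * w x) • dv x) w (fun p => by
      rw [sub_coord, smul_coord, ← h1 p]
      by_cases h : p = x
      · subst h
        rw [Function.update_self, Function.update_self, dv_self]
        push_cast
        ring
      · rw [Function.update_of_ne h, Function.update_of_ne h, dv_ne h]
        ring)
    rw [map_sub, map_smul] at h2
    have h3 : w x = GU T (fun p => lam * Function.update ω x 0 p) z x y -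
        (lam : ℂ) * (v : ℂ) * w x * GU T (fun p => lam * Function.update ω x 0 p) z x x := by
      conv_lhs => rw [h2]
      rfl
    have h4 : GU T (fun p => lam * Function.update ω x v p) z x y = w x := by rw [hw]; rfl
    have h5 := den_ne (lam * v) _
      (gu_im_pos hA T hT (fun p => lam * Function.update ω x 0 p) z hz x)
    push_cast at h5
    rw [h4, eq_div_iff h5]
    linear_combination h3
  · intro V z s x y hz hs hs1
    obtain ⟨w, hw⟩ : ∃ w, w = RU T V z (dv y) := ⟨_, rfl⟩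
    have h0 : ∀ u, GU T V z u y = w u := by
      intro u
      rw [hw]
      rfl
    have h2 : T w x + ((V x : ℝ) : ℂ) * w x - z * w x = (dv y : LL ι) x := by
      rw [hw]
      exact (hA ι T hT V z hz).2.2.1 (dv y) x
    have h3 : (((V x : ℝ) : ℂ) - z) * w x = (dv y : LL ι) x - ∑' u, T (dv x) u * w u := by
      rw [← row T hT w x]
      linear_combination h2
    rw [← ENNReal.mul_rpow_of_nonneg _ _ hs.le, h0, ← enorm_mul, h3]
    have h4 : ‖(dv y : LL ι) x - ∑' u, T (dv x) u * w u‖ₑ ≤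
        ‖(dv y : LL ι) x‖ₑ + ∑' u, ‖T (dv x) u‖ₑ * ‖w u‖ₑ := by
      refine (enorm_sub_le).trans ?_
      gcongr
      refine enorm_tsum_le_tsum_enorm.trans (le_of_eq ?_)
      exact tsum_congr fun u => enorm_mul _ _
    calc ‖(dv y : LL ι) x - ∑' u, T (dv x) u * w u‖ₑ ^ s ≤
          (‖(dv y : LL ι) x‖ₑ + ∑' u, ‖T (dv x) u‖ₑ * ‖w u‖ₑ) ^ s := by gcongr
      _ ≤ ‖(dv y : LL ι) x‖ₑ ^ s + (∑' u, ‖T (dv x) u‖ₑ * ‖w u‖ₑ) ^ s :=
          ENNReal.rpow_add_le_add_rpow _ _ hs.le hs1
      _ ≤ ‖(dv y : LL ι) x‖ₑ ^ s + ∑' u, (‖T (dv x) u‖ₑ * ‖w u‖ₑ) ^ s := by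
          gcongr
          exact rpow_tsum_le _ s hs hs1
      _ = _ := by
          congr 1
          refine tsum_congr fun u => ?_
          rw [ENNReal.mul_rpow_of_nonneg _ _ hs.le, h0]

end Pool.Agent.H399.GA
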